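import Pool.Agent.Helper27.EX.RDefs

/-!
# MP_2857a5_co, module AS : assembly in the case of many sources
-/

set_option autoImplicit false

open Finset
open scoped Classical

namespace OT

noncomputable section

section as_aux

variable {n : ℕ} {V : Type} [Fintype V]

theorem as_arc_nb {T : PTree n} {x y : Fin n} (h : T.Arc x y) : T.Nb x y := by
  rcases h with ⟨h1, h2, _⟩ | ⟨h1, h2, _⟩
  · exact Or.inl ⟨h1, h2⟩
  · exact Or.inr ⟨h1, h2⟩

theorem as_nb_symm {T : PTree n} {x y : Fin n} (h : T.Nb x y) : T.Nb y x := Or.symm h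

theorem as_nb_ne {T : PTree n} {x y : Fin n} (h : T.Nb x y) : x ≠ y := by
  rcases h with ⟨h1, h2⟩ | ⟨h1, h2⟩
  · intro e
    have h3 := T.lt y h1
    rw [h2, e] at h3
    exact lt_irrefl _ h3
  · intro e
    have h3 := T.lt x h1
    rw [h2, e] at h3
    exact lt_irrefl _ h3

theorem as_ball_succ (T : PTree n) (k : ℕ) (x y : Fin n) :
    y ∈ T.ball (k + 1) x ↔ y ∈ T.ball k x ∨ ∃ u ∈ T.ball k x, T.Nb u y := by
  simp [PTree.ball]

theorem as_ball_zero (T : PTree n) (x y : Fin n) : y ∈ T.ball 0 x ↔ y = x := by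
  simp [PTree.ball]

theorem as_ball1 {T : PTree n} {x y : Fin n} (h : T.Nb x y) : y ∈ T.ball 1 x := by
  rw [as_ball_succ]
  exact Or.inr ⟨x, (as_ball_zero T x x).mpr rfl, h⟩

theorem as_ball13 {T : PTree n} {x y : Fin n} (h : T.Nb x y) : y ∈ T.ball 3 x := by
  rw [as_ball_succ, as_ball_succ]
  exact Or.inl (Or.inl (as_ball1 h))

theorem as_ball23 {T : PTree n} {x y z : Fin n} (h : T.Nb x y) (h' : T.Nb y z) :
    z ∈ T.ball 3 x := by
  rw [as_ball_succ, as_ball_succ]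
  exact Or.inl (Or.inr ⟨y, as_ball1 h, h'⟩)

theorem as_asymm {T : PTree n} {x y : Fin n} (h : T.Arc x y) : ¬ T.Arc y x := by
  intro h'
  rcases h with ⟨h1, h2, h3⟩ | ⟨h1, h2, h3⟩ <;> rcases h' with ⟨g1, g2, g3⟩ | ⟨g1, g2, g3⟩
  · have a := T.lt y h1
    have b := T.lt x g1
    rw [h2] at a
    rw [g2] at b
    exact lt_asymm a b
  · rw [h3] at g3
    exact absurd g3 (by simp)
  · rw [h3] at g3
    exact absurd g3 (by simp)
  · have a := T.lt x h1
    have b := T.lt y g1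
    rw [h2] at a
    rw [g2] at b
    exact lt_asymm a b

theorem as_card_out (T : PTree n) {Δ : ℕ} (hT : T.Deg Δ) (x : Fin n) :
    (univ.filter fun y => T.Arc x y).card ≤ Δ + 1 := by
  have hsub : (univ.filter fun y => T.Arc x y) ⊆ insert (T.par x) (T.ch x) := by
    intro y hy
    rw [mem_filter] at hy
    rcases hy.2 with ⟨h1, h2, _⟩ | ⟨h1, h2, _⟩
    · exact mem_insert_of_mem (by simp [PTree.ch, h1, h2])
    · exact mem_insert.mpr (Or.inl h2.symm)
  refine (card_le_card hsub).trans ((card_insert_le _ _).trans ?_)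
  have := hT x
  unfold PTree.nch at this
  omega

theorem as_idx (T : PTree n) {Δ : ℕ} (hT : T.Deg Δ) :
    ∃ idx : Fin n → Fin n → Fin (Δ + 1), ∀ x y y', T.Arc x y → T.Arc x y' →
      idx x y = idx x y' → y = y' := by
  let s : Fin n → Finset (Fin n) := fun x => univ.filter fun y => T.Arc x y
  refine ⟨fun x y => if h : y ∈ s x then Fin.castLE (as_card_out T hT x) ((s x).equivFin ⟨y, h⟩)
    else 0, ?_⟩
  intro x y y' hy hy' h
  have h1 : y ∈ s x := by simp [s, hy]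
  have h2 : y' ∈ s x := by simp [s, hy']
  simp only [dif_pos h1, dif_pos h2] at h
  have h3 := (Fin.castLE_injective (as_card_out T hT x)) h
  have h4 := (s x).equivFin.injective h3
  exact congrArg Subtype.val h4

omit [Fintype V] in
theorem as_glue {ι : Type} (d : Fin n → V) (P : ι → Finset (Fin n)) (Q : ι → Finset V)
    (hP : ∀ i j, i ≠ j → Disjoint (P i) (P j)) (hQ : ∀ i j, i ≠ j → Disjoint (Q i) (Q j))
    (hc : ∀ i, (P i).card = (Q i).card) :
    ∃ ψ : Fin n → V, (∀ i, (P i).image ψ = Q i) ∧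
      ∀ x y, (∃ i, x ∈ P i) → (∃ i, y ∈ P i) → ψ x = ψ y → x = y := by
  let e : ∀ i, {x // x ∈ P i} ≃ {x // x ∈ Q i} := fun i => Finset.equivOfCardEq (hc i)
  let ψ : Fin n → V := fun x =>
    if h : ∃ i, x ∈ P i then (e h.choose ⟨x, h.choose_spec⟩ : V) else d x
  have key : ∀ i (x : Fin n) (hx : x ∈ P i), ψ x = (e i ⟨x, hx⟩ : V) := by
    intro i x hx
    have h : ∃ i, x ∈ P i := ⟨i, hx⟩
    have hi : h.choose = i := by
      by_contra hne
      exact (Finset.disjoint_left.mp (hP _ _ hne)) h.choose_spec hx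
    simp only [ψ, dif_pos h]
    have : ∀ j (hj : x ∈ P j), j = i → (e j ⟨x, hj⟩ : V) = (e i ⟨x, hx⟩ : V) := by
      intro j hj hji
      subst hji
      rfl
    exact this _ _ hi
  refine ⟨ψ, fun i => ?_, ?_⟩
  · ext v
    rw [Finset.mem_image]
    constructor
    · rintro ⟨x, hx, rfl⟩
      rw [key i x hx]
      exact (e i ⟨x, hx⟩).2
    · intro hv
      refine ⟨((e i).symm ⟨v, hv⟩).1, ((e i).symm ⟨v, hv⟩).2, ?_⟩
      rw [key i _ ((e i).symm ⟨v, hv⟩).2]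
      simp
  · rintro x y ⟨i, hx⟩ ⟨j, hy⟩ hxy
    rw [key i x hx, key j y hy] at hxy
    by_cases hij : i = j
    · subst hij
      have := (e i).injective (Subtype.ext hxy)
      exact congrArg Subtype.val this
    · exfalso
      refine Finset.disjoint_left.mp (hQ i j hij) (e i ⟨x, hx⟩).2 ?_
      rw [hxy]
      exact (e j ⟨y, hy⟩).2


/-- five labels -/
inductive AsI : Type
  | a | b | c | d | e

/-- a family indexed by the five labels -/
def asF {α : Type} (a b c d e : α) : AsI → α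
  | .a => a
  | .b => b
  | .c => c
  | .d => d
  | .e => e

omit [Fintype V] in
theorem as_pw {α : Type} (a b c d e : Finset α) (hab : Disjoint a b) (hac : Disjoint a c)
    (had : Disjoint a d) (hae : Disjoint a e) (hbc : Disjoint b c) (hbd : Disjoint b d)
    (hbe : Disjoint b e) (hcd : Disjoint c d) (hce : Disjoint c e) (hde : Disjoint d e) :
    ∀ i j, i ≠ j → Disjoint (asF a b c d e i) (asF a b c d e j)
  | .a, .a, h => absurd rfl h
  | .a, .b, _ => hab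
  | .a, .c, _ => hac
  | .a, .d, _ => had
  | .a, .e, _ => hae
  | .b, .a, _ => hab.symm
  | .b, .b, h => absurd rfl h
  | .b, .c, _ => hbc
  | .b, .d, _ => hbd
  | .b, .e, _ => hbe
  | .c, .a, _ => hac.symm
  | .c, .b, _ => hbc.symm
  | .c, .c, h => absurd rfl h
  | .c, .d, _ => hcd
  | .c, .e, _ => hce
  | .d, .a, _ => had.symm
  | .d, .b, _ => hbd.symm
  | .d, .c, _ => hcd.symm
  | .d, .d, h => absurd rfl h
  | .d, .e, _ => hde
  | .e, .a, _ => hae.symm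
  | .e, .b, _ => hbe.symm
  | .e, .c, _ => hce.symm
  | .e, .d, _ => hde.symm
  | .e, .e, h => absurd rfl h

omit [Fintype V] in
/-- gluing of five bijections -/
theorem as_glue5 (d : Fin n → V) (a b c d' e : Finset (Fin n)) (a' b' c' d'' e' : Finset V)
    (hP : ∀ i j, i ≠ j → Disjoint (asF a b c d' e i) (asF a b c d' e j))
    (hQ : ∀ i j, i ≠ j → Disjoint (asF a' b' c' d'' e' i) (asF a' b' c' d'' e' j))
    (ha : a.card = a'.card) (hb : b.card = b'.card) (hc : c.card = c'.card)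
    (hd : d'.card = d''.card) (he : e.card = e'.card) :
    ∃ ψ : Fin n → V, a.image ψ = a' ∧ b.image ψ = b' ∧ c.image ψ = c' ∧ d'.image ψ = d'' ∧
      e.image ψ = e' ∧ ∀ x ∈ a ∪ b ∪ c ∪ d' ∪ e, ∀ y ∈ a ∪ b ∪ c ∪ d' ∪ e, ψ x = ψ y → x = y := by
  have hcard : ∀ i, (asF a b c d' e i).card = (asF a' b' c' d'' e' i).card := by
    intro i
    cases i
    · exact ha
    · exact hb
    · exact hc
    · exact hd
    · exact he
  obtain ⟨ψ, him, hinj⟩ := as_glue (V := V) d _ _ hP hQ hcard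
  refine ⟨ψ, him .a, him .b, him .c, him .d, him .e, ?_⟩
  have key : ∀ x ∈ a ∪ b ∪ c ∪ d' ∪ e, ∃ i, x ∈ asF a b c d' e i := by
    intro x hx
    rcases mem_union.mp hx with hx | hx
    · rcases mem_union.mp hx with hx | hx
      · rcases mem_union.mp hx with hx | hx
        · rcases mem_union.mp hx with hx | hx
          · exact ⟨.a, hx⟩
          · exact ⟨.b, hx⟩
        · exact ⟨.c, hx⟩
      · exact ⟨.d, hx⟩
    · exact ⟨.e, hx⟩
  intro x hx y hy h
  exact hinj x y (key x hx) (key y hy) h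

omit [Fintype V] in
/-- the reserved leaves -/
theorem as_leaves (LN : Fin n → Fin n → Prop) (W : Finset (Fin n)) (f g : Fin n → Fin n → V) :
    ∃ (Lf : Finset (Fin n)) (att : Fin n → Fin n) (lam : Fin n → V),
      (∀ y ∈ Lf, LN (att y) y) ∧ (∀ x y, LN x y → y ∈ Lf) ∧
      (∀ y, att y ∈ W → lam y = f (att y) y) ∧ (∀ y, att y ∉ W → lam y = g (att y) y) := by
  let att : Fin n → Fin n := fun y => if h : ∃ x, LN x y then h.choose else y
  refine ⟨univ.filter fun y => ∃ x, LN x y, att,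
    fun y => if att y ∈ W then f (att y) y else g (att y) y, ?_, ?_, ?_, ?_⟩
  · intro y hy
    have h : ∃ x, LN x y := (mem_filter.mp hy).2
    simp only [att, dif_pos h]
    exact h.choose_spec
  · intro x y h
    exact mem_filter.mpr ⟨mem_univ _, x, h⟩
  · intro y h
    exact if_pos h
  · intro y h
    exact if_neg h

omit [Fintype V] in
theorem as_cP (τ : Bool) (pos : Fin n → Bool) (Tl U W H1 H0 : Finset (Fin n))
    (pT : ∀ x ∈ Tl, pos x = τ) (pU : ∀ x ∈ U, pos x = false) (pW : ∀ x ∈ W, pos x = true)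
    (pH1 : ∀ x ∈ H1, pos x = true) (pH0 : ∀ x ∈ H0, pos x = false)
    (d1 : ∀ x ∈ Tl, x ∉ W) (d2 : ∀ x ∈ Tl, x ∉ H1) (d3 : ∀ x ∈ W, x ∉ H1) :
    ((Tl ∪ U ∪ W ∪ H1 ∪ H0).filter fun y => pos y = true).card
        = (if τ = true then Tl.card else 0) + W.card + H1.card := by
  have hWH : ((W ∪ H1) : Finset (Fin n)).card = W.card + H1.card :=
    card_union_of_disjoint (Finset.disjoint_left.mpr d3)
  cases τ
  · have h1 : ((Tl ∪ U ∪ W ∪ H1 ∪ H0).filter fun y => pos y = true) = W ∪ H1 := by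
      ext x
      rw [mem_filter, mem_union, mem_union, mem_union, mem_union, mem_union]
      constructor
      · rintro ⟨(((h | h) | h) | h) | h, hp⟩
        · rw [pT x h] at hp
          exact absurd hp (by decide)
        · rw [pU x h] at hp
          exact absurd hp (by decide)
        · exact Or.inl h
        · exact Or.inr h
        · rw [pH0 x h] at hp
          exact absurd hp (by decide)
      · rintro (h | h)
        · exact ⟨Or.inl (Or.inl (Or.inr h)), pW x h⟩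
        · exact ⟨Or.inl (Or.inr h), pH1 x h⟩
    rw [h1, hWH, if_neg (by decide)]
    omega
  · have h1 : ((Tl ∪ U ∪ W ∪ H1 ∪ H0).filter fun y => pos y = true) = Tl ∪ (W ∪ H1) := by
      ext x
      rw [mem_filter, mem_union, mem_union, mem_union, mem_union, mem_union, mem_union]
      constructor
      · rintro ⟨(((h | h) | h) | h) | h, hp⟩
        · exact Or.inl h
        · rw [pU x h] at hp
          exact absurd hp (by decide)
        · exact Or.inr (Or.inl h)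
        · exact Or.inr (Or.inr h)
        · rw [pH0 x h] at hp
          exact absurd hp (by decide)
      · rintro (h | h | h)
        · exact ⟨Or.inl (Or.inl (Or.inl (Or.inl h))), pT x h⟩
        · exact ⟨Or.inl (Or.inl (Or.inr h)), pW x h⟩
        · exact ⟨Or.inl (Or.inr h), pH1 x h⟩
    rw [h1, card_union_of_disjoint, hWH, if_pos rfl]
    · omega
    · refine Finset.disjoint_left.mpr fun x hx h => ?_
      rcases mem_union.mp h with h | h
      · exact d1 x hx h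
      · exact d2 x hx h

omit [Fintype V] in
theorem as_cB (B X S1 S2 S3 E1 E0 Q : Finset V) (hBX : ∀ v ∈ B, v ∈ X)
    (hQ : ∀ v, v ∈ Q ↔ v ∈ S1 ∨ v ∈ S2 ∨ v ∈ S3 ∨ v ∈ E1 ∨ v ∈ E0)
    (h1X : ∀ v ∈ S1, v ∈ X) (h2X : ∀ v ∈ S2, v ∈ X) (h3X : ∀ v ∈ S3, v ∉ X)
    (hS12 : Disjoint S1 S2)
    (hE1 : ∀ v, v ∈ E1 ↔ v ∈ X ∧ v ∉ B ∧ v ∉ S1 ∧ v ∉ S2)
    (hE0 : ∀ v ∈ E0, v ∉ X) :
    (B \ Q).card + (S1.card + S2.card + E1.card) = X.card := by
  have h1 : B \ Q = X \ (S1 ∪ S2 ∪ E1) := by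
    ext v
    rw [mem_sdiff, mem_sdiff, hQ, mem_union, mem_union]
    constructor
    · rintro ⟨hb, hn⟩
      refine ⟨hBX v hb, ?_⟩
      rintro ((h | h) | h)
      · exact hn (Or.inl h)
      · exact hn (Or.inr (Or.inl h))
      · exact hn (Or.inr (Or.inr (Or.inr (Or.inl h))))
    · rintro ⟨hx, hn⟩
      have h1 : v ∉ S1 := fun h => hn (Or.inl (Or.inl h))
      have h2 : v ∉ S2 := fun h => hn (Or.inl (Or.inr h))
      have h3 : v ∉ E1 := fun h => hn (Or.inr h)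
      have hb : v ∈ B := by
        by_contra hb
        exact h3 ((hE1 v).mpr ⟨hx, hb, h1, h2⟩)
      refine ⟨hb, ?_⟩
      rintro (h | h | h | h | h)
      · exact h1 h
      · exact h2 h
      · exact h3X v h hx
      · exact h3 h
      · exact hE0 v h hx
  have h2 : (S1 ∪ S2 ∪ E1).card = S1.card + S2.card + E1.card := by
    rw [card_union_of_disjoint, card_union_of_disjoint hS12]
    refine Finset.disjoint_left.mpr fun x hx h => ?_
    rcases mem_union.mp hx with hx | hx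
    · exact ((hE1 x).mp h).2.2.1 hx
    · exact ((hE1 x).mp h).2.2.2 hx
  have h3 : S1 ∪ S2 ∪ E1 ⊆ X := by
    intro v hv
    rcases mem_union.mp hv with hv | hv
    · rcases mem_union.mp hv with hv | hv
      · exact h1X v hv
      · exact h2X v hv
    · exact ((hE1 v).mp hv).1
  rw [h1, ← h2, card_sdiff_add_card_eq_card h3]

theorem as_cF (hV : Fintype.card V = n) (pos : Fin n → Bool) (Sp : Finset (Fin n))
    (B C Q : Finset V) (hQ : Q.card = Sp.card) (hBC : ∀ v ∈ B, v ∉ C)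
    (hcov : ∀ v, v ∉ B → v ∉ C → v ∈ Q)
    (hT : (univ.filter fun y => y ∉ Sp ∧ pos y = true).card = (B \ Q).card) :
    (univ.filter fun y => y ∉ Sp ∧ pos y = false).card = (C \ Q).card := by
  have h1 : (univ.filter fun y => y ∉ Sp ∧ pos y = true).card
      + (univ.filter fun y => y ∉ Sp ∧ pos y = false).card + Sp.card = n := by
    have e1 : (univ.filter fun y => y ∉ Sp ∧ pos y = true).card
      + (univ.filter fun y => y ∉ Sp ∧ pos y = false).card
      = (univ.filter fun y => y ∉ Sp).card := by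
      rw [← card_union_of_disjoint]
      · congr 1
        ext x
        rw [mem_union, mem_filter, mem_filter, mem_filter]
        constructor
        · rintro (h | h)
          · exact ⟨h.1, h.2.1⟩
          · exact ⟨h.1, h.2.1⟩
        · rintro ⟨h, h'⟩
          cases hp : pos x
          · exact Or.inr ⟨h, h', rfl⟩
          · exact Or.inl ⟨h, h', rfl⟩
      · refine Finset.disjoint_left.mpr fun x hx h => ?_
        have h1 := (mem_filter.mp hx).2.2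
        have h2 := (mem_filter.mp h).2.2
        rw [h1] at h2
        exact absurd h2 (by decide)
    have e2 : (univ.filter fun y => y ∉ Sp) = Spᶜ := by
      ext x
      rw [mem_filter, mem_compl]
      exact ⟨fun h => h.2, fun h => ⟨mem_univ _, h⟩⟩
    rw [e1, e2, card_compl, Fintype.card_fin]
    have := card_le_univ Sp
    rw [Fintype.card_fin] at this
    omega
  have h2 : (B \ Q).card + (C \ Q).card + Q.card = n := by
    have e1 : (B \ Q).card + (C \ Q).card = (Qᶜ).card := by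
      rw [← card_union_of_disjoint]
      · congr 1
        ext v
        rw [mem_union, mem_sdiff, mem_sdiff, mem_compl]
        constructor
        · rintro (h | h)
          · exact h.2
          · exact h.2
        · intro h
          by_cases hb : v ∈ B
          · exact Or.inl ⟨hb, h⟩
          · by_cases hc : v ∈ C
            · exact Or.inr ⟨hc, h⟩
            · exact absurd (hcov v hb hc) h
      · refine Finset.disjoint_left.mpr fun x hx h => ?_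
        exact hBC x (mem_sdiff.mp hx).1 (mem_sdiff.mp h).1
    rw [e1, card_compl, hV]
    have := card_le_univ Q
    rw [hV] at this
    omega
  omega

omit [Fintype V] in
theorem as_cT (pos : Fin n → Bool) (Sp : Finset (Fin n)) :
    (univ.filter fun y => y ∉ Sp ∧ pos y = true).card
      + (Sp.filter fun y => pos y = true).card
      = (univ.filter fun v => pos v = true).card := by
  rw [← card_union_of_disjoint]
  · congr 1
    ext x
    rw [mem_union, mem_filter, mem_filter, mem_filter]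
    constructor
    · rintro (h | h)
      · exact ⟨h.1, h.2.2⟩
      · exact ⟨mem_univ _, h.2⟩
    · rintro ⟨h, h'⟩
      by_cases hs : x ∈ Sp
      · exact Or.inr ⟨hs, h'⟩
      · exact Or.inl ⟨h, hs, h'⟩
  · refine Finset.disjoint_left.mpr fun x hx h => ?_
    exact (mem_filter.mp hx).2.1 (mem_filter.mp h).1


/-- the facts on the placement of the special vertices -/
structure AsCtx {Δ : ℕ} (T : PTree n) (D : V → V → Prop) (τ : Bool) (γ : ℝ)
    (pos : Fin n → Bool) (Tl : Finset (Fin n)) (hd : Fin n → Fin n) (M₁ M₀ : Finset (Fin n))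
    (B C X S S' : Finset V) (lv lv' : V → Fin (Δ + 1) → V)
    (S1 S2 S3 E1 E0 : Finset V) (U W H1 H0 Sp : Finset (Fin n)) (ψ : Fin n → V)
    (Lf : Finset (Fin n)) (att : Fin n → Fin n) (lam : Fin n → V)
    (idx : Fin n → Fin n → Fin (Δ + 1)) : Prop where
  tlM1 : ∀ x ∈ Tl, x ∉ M₁
  tlM0 : ∀ x ∈ Tl, x ∉ M₀
  arc : ∀ x y, T.Arc x y → pos x ≠ pos y ∨ (x ∈ Tl ∧ y = hd x)
  tl : ∀ x ∈ Tl, x ∉ M₁ ∪ M₀ ∧ T.Arc x (hd x) ∧ pos x = τ ∧ pos (hd x) = τ
  src : ∀ x ∈ M₁ ∪ M₀, T.Src x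
  pos1 : ∀ x ∈ M₁, pos x = true
  pos0 : ∀ x ∈ M₀, pos x = false
  sep : ∀ a ∈ Sp, ∀ b ∈ Sp, a ≠ b → b ∉ T.ball 3 a
  mSp : ∀ x, x ∈ Sp ↔ x ∈ Tl ∨ x ∈ U ∨ x ∈ W ∨ x ∈ H1 ∨ x ∈ H0
  hU : ∀ x ∈ U, x ∈ M₀
  hH0 : ∀ x ∈ H0, x ∈ M₀
  hW : ∀ x ∈ W, x ∈ M₁
  hH1 : ∀ x ∈ H1, x ∈ M₁
  inj : ∀ x ∈ Sp, ∀ y ∈ Sp, ψ x = ψ y → x = y
  p1 : ∀ x ∈ Tl, ψ x ∈ S1
  p2 : ∀ x ∈ U, ψ x ∈ S2
  p3 : ∀ x ∈ W, ψ x ∈ S3
  p4 : ∀ x ∈ H1, ψ x ∈ E1
  p5 : ∀ x ∈ H0, ψ x ∈ E0
  mIm : ∀ v, v ∈ Sp.image ψ ↔ v ∈ S1 ∨ v ∈ S2 ∨ v ∈ S3 ∨ v ∈ E1 ∨ v ∈ E0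
  s1 : ∀ v ∈ S1, v ∈ S
  s2 : ∀ v ∈ S2, v ∈ S
  s3 : ∀ v ∈ S3, v ∈ S'
  SX : ∀ v ∈ S, v ∈ X
  S'X : ∀ v ∈ S', v ∉ X
  CX : ∀ v ∈ C, v ∉ X
  BX : ∀ v ∈ B, v ∈ X
  hE1 : ∀ v, v ∈ E1 ↔ v ∈ X ∧ v ∉ B ∧ v ∉ S1 ∧ v ∉ S2
  hE0 : ∀ v, v ∈ E0 ↔ v ∉ X ∧ v ∉ C ∧ v ∉ S3
  st : Stars D true (Δ + 1) S B lv
  st' : Stars D true (Δ + 1) S' C lv'
  out1 : ∀ u ∈ X, γ * (n : ℝ) ≤ ((C ∩ adjN D true u).card : ℝ)
  out0 : ∀ u, u ∉ X → γ * (n : ℝ) ≤ ((B ∩ adjN D true u).card : ℝ)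
  inS : ∀ u ∈ S, γ * (n : ℝ) ≤ (((if τ = true then C else B) ∩ adjN D false u).card : ℝ)
  l1 : ∀ y ∈ Lf, T.Arc (att y) y ∧ ((att y ∈ Tl ∧ (y = hd (att y) ↔ τ = true)) ∨ att y ∈ U ∨
    att y ∈ W)
  l2 : ∀ x y, (T.Arc x y ∧ ((x ∈ Tl ∧ (y = hd x ↔ τ = true)) ∨ x ∈ U ∨ x ∈ W)) → y ∈ Lf
  l3 : ∀ y, att y ∈ W → lam y = lv' (ψ (att y)) (idx (att y) y)
  l4 : ∀ y, att y ∉ W → lam y = lv (ψ (att y)) (idx (att y) y)
  hidx : ∀ x y y', T.Arc x y → T.Arc x y' → idx x y = idx x y' → y = y'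

namespace AsCtx

variable {Δ : ℕ} {T : PTree n} {D : V → V → Prop} {τ : Bool} {γ : ℝ}
    {pos : Fin n → Bool} {Tl : Finset (Fin n)} {hd : Fin n → Fin n} {M₁ M₀ : Finset (Fin n)}
    {B C X S S' : Finset V} {lv lv' : V → Fin (Δ + 1) → V}
    {S1 S2 S3 E1 E0 : Finset V} {U W H1 H0 Sp : Finset (Fin n)} {ψ : Fin n → V}
    {Lf : Finset (Fin n)} {att : Fin n → Fin n} {lam : Fin n → V}
    {idx : Fin n → Fin n → Fin (Δ + 1)}

theorem nbSp (c : AsCtx T D τ γ pos Tl hd M₁ M₀ B C X S S' lv lv' S1 S2 S3 E1 E0 U W H1 H0 Sp ψ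
    Lf att lam idx) : ∀ x ∈ Sp, ∀ y, T.Nb x y → y ∉ Sp := fun x hx y h hy =>
  c.sep x hx y hy (as_nb_ne h) (as_ball13 h)

theorem nbUniq (c : AsCtx T D τ γ pos Tl hd M₁ M₀ B C X S S' lv lv' S1 S2 S3 E1 E0 U W H1 H0 Sp ψ
    Lf att lam idx) : ∀ x ∈ Sp, ∀ x' ∈ Sp, ∀ y, T.Nb x y → T.Nb x' y → x = x' := by
  intro x hx x' hx' y h h'
  by_contra hne
  exact c.sep x hx x' hx' hne (as_ball23 h (as_nb_symm h'))

theorem attSp (c : AsCtx T D τ γ pos Tl hd M₁ M₀ B C X S S' lv lv' S1 S2 S3 E1 E0 U W H1 H0 Sp ψ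
    Lf att lam idx) : ∀ y ∈ Lf, att y ∈ Sp := by
  intro y hy
  rw [c.mSp]
  rcases (c.l1 y hy).2 with h | h | h
  · exact Or.inl h.1
  · exact Or.inr (Or.inl h)
  · exact Or.inr (Or.inr (Or.inl h))

theorem attU (c : AsCtx T D τ γ pos Tl hd M₁ M₀ B C X S S' lv lv' S1 S2 S3 E1 E0 U W H1 H0 Sp ψ
    Lf att lam idx) : ∀ x ∈ Sp, ∀ y ∈ Lf, T.Nb x y → x = att y := fun x hx y hy h =>
  c.nbUniq x hx (att y) (c.attSp y hy) y h (as_arc_nb (c.l1 y hy).1)

theorem posM1 (c : AsCtx T D τ γ pos Tl hd M₁ M₀ B C X S S' lv lv' S1 S2 S3 E1 E0 U W H1 H0 Sp ψ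
    Lf att lam idx) : ∀ x ∈ M₁, ∀ y, T.Arc x y → pos y = false := by
  intro x hx y h
  rcases c.arc x y h with h1 | h1
  · rw [c.pos1 x hx] at h1
    cases hp : pos y
    · rfl
    · rw [hp] at h1
      exact absurd rfl h1
  · exact absurd hx (c.tlM1 x h1.1)

theorem posM0 (c : AsCtx T D τ γ pos Tl hd M₁ M₀ B C X S S' lv lv' S1 S2 S3 E1 E0 U W H1 H0 Sp ψ
    Lf att lam idx) : ∀ x ∈ M₀, ∀ y, T.Arc x y → pos y = true := by
  intro x hx y h
  rcases c.arc x y h with h1 | h1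
  · rw [c.pos0 x hx] at h1
    cases hp : pos y
    · rw [hp] at h1
      exact absurd rfl h1
    · rfl
  · exact absurd hx (c.tlM0 x h1.1)

theorem leafW (c : AsCtx T D τ γ pos Tl hd M₁ M₀ B C X S S' lv lv' S1 S2 S3 E1 E0 U W H1 H0 Sp ψ
    Lf att lam idx) : ∀ y ∈ Lf, att y ∈ W → ψ (att y) ∈ S' ∧ pos y = false ∧
      lam y = lv' (ψ (att y)) (idx (att y) y) := by
  intro y hy hw
  exact ⟨c.s3 _ (c.p3 _ hw), c.posM1 _ (c.hW _ hw) y (c.l1 y hy).1, c.l3 y hw⟩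

theorem leafN (c : AsCtx T D τ γ pos Tl hd M₁ M₀ B C X S S' lv lv' S1 S2 S3 E1 E0 U W H1 H0 Sp ψ
    Lf att lam idx) : ∀ y ∈ Lf, att y ∉ W → ψ (att y) ∈ S ∧ pos y = true ∧
      lam y = lv (ψ (att y)) (idx (att y) y) := by
  intro y hy hw
  have hl := c.l4 y hw
  have h1 := c.l1 y hy
  rcases h1.2 with h2 | h2 | h2
  · refine ⟨c.s1 _ (c.p1 _ h2.1), ?_, hl⟩
    obtain ⟨-, -, t3, t4⟩ := c.tl _ h2.1
    cases τ
    · have h3 : y ≠ hd (att y) := fun h => absurd (h2.2.mp h) (by decide)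
      rcases c.arc _ _ h1.1 with h4 | h4
      · rw [t3] at h4
        cases hp : pos y
        · rw [hp] at h4
          exact absurd rfl h4
        · rfl
      · exact absurd h4.2 h3
    · rw [h2.2.mpr rfl, t4]
  · exact ⟨c.s2 _ (c.p2 _ h2), c.posM0 _ (c.hU _ h2) y h1.1, hl⟩
  · exact absurd h2 hw

theorem all (c : AsCtx T D τ γ pos Tl hd M₁ M₀ B C X S S' lv lv' S1 S2 S3 E1 E0 U W H1 H0 Sp ψ
    Lf att lam idx) : ∀ v, v ∉ B → v ∉ C → v ∈ Sp.image ψ := by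
  intro v hB hC
  rw [c.mIm]
  by_cases hX : v ∈ X
  · by_cases h1 : v ∈ S1
    · exact Or.inl h1
    · by_cases h2 : v ∈ S2
      · exact Or.inr (Or.inl h2)
      · exact Or.inr (Or.inr (Or.inr (Or.inl ((c.hE1 v).mpr ⟨hX, hB, h1, h2⟩))))
  · by_cases h3 : v ∈ S3
    · exact Or.inr (Or.inr (Or.inl h3))
    · exact Or.inr (Or.inr (Or.inr (Or.inr ((c.hE0 v).mpr ⟨hX, hC, h3⟩))))

theorem linj (c : AsCtx T D τ γ pos Tl hd M₁ M₀ B C X S S' lv lv' S1 S2 S3 E1 E0 U W H1 H0 Sp ψ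
    Lf att lam idx) : ∀ y ∈ Lf, ∀ y' ∈ Lf, lam y = lam y' → y = y' := by
  intro y hy y' hy' h
  have a1 := (c.l1 y hy).1
  have a2 := (c.l1 y' hy').1
  have s1 := c.attSp y hy
  have s2 := c.attSp y' hy'
  by_cases hw : att y ∈ W <;> by_cases hw' : att y' ∈ W
  · obtain ⟨q1, -, q3⟩ := c.leafW y hy hw
    obtain ⟨r1, -, r3⟩ := c.leafW y' hy' hw'
    rw [q3, r3] at h
    obtain ⟨e1, e2⟩ := c.st'.inj _ q1 _ r1 _ _ h
    have e3 := c.inj _ s1 _ s2 e1
    rw [e3] at e2 a1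
    exact c.hidx _ _ _ a1 a2 e2
  · exfalso
    obtain ⟨q1, -, q3⟩ := c.leafW y hy hw
    obtain ⟨r1, -, r3⟩ := c.leafN y' hy' hw'
    have u1 := (c.st'.adj _ q1 (idx (att y) y)).1
    have u2 := (c.st.adj _ r1 (idx (att y') y')).1
    rw [← q3, h, r3] at u1
    exact c.CX _ u1 (c.BX _ u2)
  · exfalso
    obtain ⟨q1, -, q3⟩ := c.leafN y hy hw
    obtain ⟨r1, -, r3⟩ := c.leafW y' hy' hw'
    have u1 := (c.st.adj _ q1 (idx (att y) y)).1
    have u2 := (c.st'.adj _ r1 (idx (att y') y')).1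
    rw [← q3, h, r3] at u1
    exact c.CX _ u2 (c.BX _ u1)
  · obtain ⟨q1, -, q3⟩ := c.leafN y hy hw
    obtain ⟨r1, -, r3⟩ := c.leafN y' hy' hw'
    rw [q3, r3] at h
    obtain ⟨e1, e2⟩ := c.st.inj _ q1 _ r1 _ _ h
    have e3 := c.inj _ s1 _ s2 e1
    rw [e3] at e2 a1
    exact c.hidx _ _ _ a1 a2 e2

theorem leaf (c : AsCtx T D τ γ pos Tl hd M₁ M₀ B C X S S' lv lv' S1 S2 S3 E1 E0 U W H1 H0 Sp ψ
    Lf att lam idx) : ∀ y ∈ Lf, y ∉ Sp ∧ lam y ∈ (if pos y = true then B else C) ∧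
      lam y ∉ Sp.image ψ := by
  intro y hy
  have a1 := c.l1 y hy
  refine ⟨c.nbSp _ (c.attSp y hy) y (as_arc_nb a1.1), ?_⟩
  by_cases hw : att y ∈ W
  · obtain ⟨q1, q2, q3⟩ := c.leafW y hy hw
    obtain ⟨u1, -, u3⟩ := c.st'.adj _ q1 (idx (att y) y)
    rw [← q3] at u1 u3
    rw [q2, if_neg (by decide)]
    refine ⟨u1, ?_⟩
    rw [c.mIm]
    rintro (h | h | h | h | h)
    · exact c.CX _ u1 (c.SX _ (c.s1 _ h))
    · exact c.CX _ u1 (c.SX _ (c.s2 _ h))
    · exact u3 (c.s3 _ h)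
    · exact c.CX _ u1 ((c.hE1 _).mp h).1
    · exact ((c.hE0 _).mp h).2.1 u1
  · obtain ⟨q1, q2, q3⟩ := c.leafN y hy hw
    obtain ⟨u1, -, u3⟩ := c.st.adj _ q1 (idx (att y) y)
    rw [← q3] at u1 u3
    rw [q2, if_pos rfl]
    refine ⟨u1, ?_⟩
    rw [c.mIm]
    rintro (h | h | h | h | h)
    · exact u3 (c.s1 _ h)
    · exact u3 (c.s2 _ h)
    · exact c.S'X _ (c.s3 _ h) (c.BX _ u1)
    · exact ((c.hE1 _).mp h).2.1 u1
    · exact ((c.hE0 _).mp h).1 (c.BX _ u1)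

theorem outL (c : AsCtx T D τ γ pos Tl hd M₁ M₀ B C X S S' lv lv' S1 S2 S3 E1 E0 U W H1 H0 Sp ψ
    Lf att lam idx) : ∀ x ∈ Sp, ∀ y ∈ Lf, T.Arc x y → D (ψ x) (lam y) := by
  intro x hx y hy h
  have hxa := c.attU x hx y hy (as_arc_nb h)
  rw [hxa]
  by_cases hw : att y ∈ W
  · obtain ⟨q1, q2, q3⟩ := c.leafW y hy hw
    obtain ⟨-, u2, -⟩ := c.st'.adj _ q1 (idx (att y) y)
    rw [← q3] at u2
    simpa [Adj] using u2
  · obtain ⟨q1, q2, q3⟩ := c.leafN y hy hw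
    obtain ⟨-, u2, -⟩ := c.st.adj _ q1 (idx (att y) y)
    rw [← q3] at u2
    simpa [Adj] using u2

theorem inL (c : AsCtx T D τ γ pos Tl hd M₁ M₀ B C X S S' lv lv' S1 S2 S3 E1 E0 U W H1 H0 Sp ψ
    Lf att lam idx) : ∀ x ∈ Sp, ∀ y ∈ Lf, T.Arc y x → D (lam y) (ψ x) := by
  intro x hx y hy h
  exfalso
  have hxa := c.attU x hx y hy (as_nb_symm (as_arc_nb h))
  have a1 := (c.l1 y hy).1
  rw [← hxa] at a1
  exact as_asymm a1 h

theorem outF (c : AsCtx T D τ γ pos Tl hd M₁ M₀ B C X S S' lv lv' S1 S2 S3 E1 E0 U W H1 H0 Sp ψ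
    Lf att lam idx) : ∀ x ∈ Sp, ∀ y, y ∉ Lf → T.Arc x y →
    γ * (n : ℝ) ≤ (((if pos y = true then B else C) ∩ adjN D true (ψ x)).card : ℝ) := by
  intro x hx y hy h
  have hnl := fun hl => hy (c.l2 x y hl)
  rcases (c.mSp x).mp hx with hc | hc | hc | hc | hc
  · have hp : pos y = false := by
      obtain ⟨-, -, t3, t4⟩ := c.tl x hc
      have h1 : ¬ (y = hd x ↔ τ = true) := fun h2 => hnl ⟨h, Or.inl ⟨hc, h2⟩⟩
      cases τ
      · have h3 : y = hd x := by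
          by_contra h4
          exact h1 ⟨fun h5 => absurd h5 h4, fun h5 => absurd h5 (by decide)⟩
        rw [h3, t4]
      · have h3 : y ≠ hd x := fun h4 => h1 ⟨fun _ => rfl, fun _ => h4⟩
        rcases c.arc x y h with h4 | h4
        · rw [t3] at h4
          cases hp : pos y
          · rfl
          · rw [hp] at h4
            exact absurd rfl h4
        · exact absurd h4.2 h3
    rw [hp, if_neg (by decide)]
    exact c.out1 _ (c.SX _ (c.s1 _ (c.p1 x hc)))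
  · exact absurd ⟨h, Or.inr (Or.inl hc)⟩ hnl
  · exact absurd ⟨h, Or.inr (Or.inr hc)⟩ hnl
  · have hp := c.posM1 x (c.hH1 _ hc) y h
    rw [hp, if_neg (by decide)]
    exact c.out1 _ ((c.hE1 _).mp (c.p4 x hc)).1
  · have hp := c.posM0 x (c.hH0 _ hc) y h
    rw [hp, if_pos rfl]
    exact c.out0 _ ((c.hE0 _).mp (c.p5 x hc)).1

theorem inF (c : AsCtx T D τ γ pos Tl hd M₁ M₀ B C X S S' lv lv' S1 S2 S3 E1 E0 U W H1 H0 Sp ψ
    Lf att lam idx) : ∀ x ∈ Sp, ∀ y, y ∉ Lf → T.Arc y x →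
    γ * (n : ℝ) ≤ (((if pos y = true then B else C) ∩ adjN D false (ψ x)).card : ℝ) := by
  intro x hx y hy h
  have hsrc : x ∉ M₁ ∪ M₀ := fun hm => c.src x hm y h
  have hc : x ∈ Tl := by
    rcases (c.mSp x).mp hx with hc | hc | hc | hc | hc
    · exact hc
    · exact absurd (mem_union_right _ (c.hU _ hc)) hsrc
    · exact absurd (mem_union_left _ (c.hW _ hc)) hsrc
    · exact absurd (mem_union_left _ (c.hH1 _ hc)) hsrc
    · exact absurd (mem_union_right _ (c.hH0 _ hc)) hsrc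
  have h1 : pos y ≠ pos x := by
    rcases c.arc y x h with h1 | h1
    · exact h1
    · exfalso
      exact c.nbSp x hx y (as_nb_symm (as_arc_nb h)) ((c.mSp y).mpr (Or.inl h1.1))
  have t3 : pos x = τ := (c.tl x hc).2.2.1
  have h2 := c.inS _ (c.s1 _ (c.p1 x hc))
  rw [t3] at h1
  cases hτ : τ
  · have hp : pos y = true := by
      cases hp : pos y
      · rw [hp, hτ] at h1
        exact absurd rfl h1
      · rfl
    rw [hτ, if_neg (by decide)] at h2
    rw [hp, if_pos rfl]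
    exact h2
  · have hp : pos y = false := by
      cases hp : pos y
      · rfl
      · rw [hp, hτ] at h1
        exact absurd rfl h1
    rw [hτ, if_pos rfl] at h2
    rw [hp, if_neg (by decide)]
    exact h2

end AsCtx

theorem as_ctx {Δ : ℕ} (T : PTree n) (hT : T.Deg Δ) (hV : Fintype.card V = n)
    (D : V → V → Prop) (τ : Bool) (K k : ℕ) (η γ κ : ℝ)
    (pos : Fin n → Bool) (Tl : Finset (Fin n)) (hd : Fin n → Fin n) (M₁ M₀ : Finset (Fin n))
    (hTree : TreeS T τ K η pos Tl hd M₁ M₀) (B C X S S' : Finset V)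
    (lv lv' : V → Fin (Δ + 1) → V)
    (hHost : HostS D Δ B C X τ S S' lv lv' γ κ k)
    (S1 S2 S3 E1 E0 : Finset V) (U W H1 H0 : Finset (Fin n))
    (hS1 : S1 ⊆ S) (hS2 : S2 ⊆ S) (hS12 : Disjoint S1 S2) (hS3 : S3 ⊆ S')
    (hE1 : ∀ v, v ∈ E1 ↔ v ∈ X ∧ v ∉ B ∧ v ∉ S1 ∧ v ∉ S2)
    (hE0 : ∀ v, v ∈ E0 ↔ v ∉ X ∧ v ∉ C ∧ v ∉ S3)
    (hU : U ⊆ M₀) (hH0 : H0 ⊆ M₀) (hUH0 : Disjoint U H0)
    (hW : W ⊆ M₁) (hH1 : H1 ⊆ M₁) (hWH1 : Disjoint W H1)
    (c1 : Tl.card = S1.card) (c2 : U.card = S2.card) (c3 : W.card = S3.card)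
    (c4 : H1.card = E1.card) (c5 : H0.card = E0.card) :
    ∃ (ψ : Fin n → V) (Lf : Finset (Fin n)) (att : Fin n → Fin n) (lam : Fin n → V)
      (idx : Fin n → Fin n → Fin (Δ + 1)),
      AsCtx T D τ γ pos Tl hd M₁ M₀ B C X S S' lv lv' S1 S2 S3 E1 E0 U W H1 H0
        (Tl ∪ U ∪ W ∪ H1 ∪ H0) ψ Lf att lam idx := by
  -- facts on the tree side
  have tlM1 : ∀ x ∈ Tl, x ∉ M₁ := fun x hx h =>
    (hTree.tl x hx).1 (mem_union_left _ h)
  have tlM0 : ∀ x ∈ Tl, x ∉ M₀ := fun x hx h =>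
    (hTree.tl x hx).1 (mem_union_right _ h)
  have M10 : ∀ x ∈ M₁, x ∉ M₀ := fun x hx h => by
    have h1 := hTree.pos1 x hx
    have h2 := hTree.pos0 x h
    rw [h1] at h2
    exact absurd h2 (by decide)
  -- facts on the host side
  have SX : ∀ v ∈ S, v ∈ X := fun v hv => hHost.SX hv
  have S'X : ∀ v ∈ S', v ∉ X := fun v hv h => Finset.disjoint_left.mp hHost.SX' hv h
  have CX : ∀ v ∈ C, v ∉ X := fun v hv h => Finset.disjoint_left.mp hHost.CX hv h
  have BX : ∀ v ∈ B, v ∈ X := fun v hv => hHost.BX hv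
  have hP := as_pw Tl U W H1 H0
    (Finset.disjoint_left.mpr fun x hx h => tlM0 x hx (hU h))
    (Finset.disjoint_left.mpr fun x hx h => tlM1 x hx (hW h))
    (Finset.disjoint_left.mpr fun x hx h => tlM1 x hx (hH1 h))
    (Finset.disjoint_left.mpr fun x hx h => tlM0 x hx (hH0 h))
    (Finset.disjoint_left.mpr fun x hx h => M10 x (hW h) (hU hx))
    (Finset.disjoint_left.mpr fun x hx h => M10 x (hH1 h) (hU hx))
    hUH0 hWH1
    (Finset.disjoint_left.mpr fun x hx h => M10 x (hW hx) (hH0 h))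
    (Finset.disjoint_left.mpr fun x hx h => M10 x (hH1 hx) (hH0 h))
  have hQ := as_pw S1 S2 S3 E1 E0 hS12
    (Finset.disjoint_left.mpr fun x hx h => S'X x (hS3 h) (SX x (hS1 hx)))
    (Finset.disjoint_left.mpr fun x hx h => ((hE1 x).mp h).2.2.1 hx)
    (Finset.disjoint_left.mpr fun x hx h => ((hE0 x).mp h).1 (SX x (hS1 hx)))
    (Finset.disjoint_left.mpr fun x hx h => S'X x (hS3 h) (SX x (hS2 hx)))
    (Finset.disjoint_left.mpr fun x hx h => ((hE1 x).mp h).2.2.2 hx)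
    (Finset.disjoint_left.mpr fun x hx h => ((hE0 x).mp h).1 (SX x (hS2 hx)))
    (Finset.disjoint_left.mpr fun x hx h => S'X x (hS3 hx) ((hE1 x).mp h).1)
    (Finset.disjoint_left.mpr fun x hx h => ((hE0 x).mp h).2.2 hx)
    (Finset.disjoint_left.mpr fun x hx h => ((hE0 x).mp h).1 ((hE1 x).mp hx).1)
  obtain ⟨ψ, i1, i2, i3, i4, i5, inj⟩ := as_glue5 (V := V)
    (fun x => (Fintype.equivFinOfCardEq hV).symm x) Tl U W H1 H0 S1 S2 S3 E1 E0 hP hQ c1 c2 c3 c4 c5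
  obtain ⟨idx, hidx⟩ := as_idx T hT
  obtain ⟨Lf, att, lam, l1, l2, l3, l4⟩ := as_leaves (V := V) (fun x y =>
    T.Arc x y ∧ ((x ∈ Tl ∧ (y = hd x ↔ τ = true)) ∨ x ∈ U ∨ x ∈ W)) W
    (fun x y => lv' (ψ x) (idx x y)) (fun x y => lv (ψ x) (idx x y))
  have mSp : ∀ x, x ∈ Tl ∪ U ∪ W ∪ H1 ∪ H0 ↔ x ∈ Tl ∨ x ∈ U ∨ x ∈ W ∨ x ∈ H1 ∨ x ∈ H0 := by
    intro x
    rw [mem_union, mem_union, mem_union, mem_union, or_assoc, or_assoc, or_assoc]
  have spM : ∀ x ∈ Tl ∪ U ∪ W ∪ H1 ∪ H0, x ∈ Tl ∪ M₁ ∪ M₀ := by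
    intro x hx
    rw [mem_union, mem_union]
    rcases (mSp x).mp hx with h | h | h | h | h
    · exact Or.inl (Or.inl h)
    · exact Or.inr (hU h)
    · exact Or.inl (Or.inr (hW h))
    · exact Or.inl (Or.inr (hH1 h))
    · exact Or.inr (hH0 h)
  exact ⟨ψ, Lf, att, lam, idx,
    { tlM1 := tlM1
      tlM0 := tlM0
      arc := hTree.arc
      tl := hTree.tl
      src := hTree.src
      pos1 := hTree.pos1
      pos0 := hTree.pos0
      sep := fun a ha b hb hab => hTree.sep a (spM a ha) b (spM b hb) hab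
      mSp := mSp
      hU := fun x hx => hU hx
      hH0 := fun x hx => hH0 hx
      hW := fun x hx => hW hx
      hH1 := fun x hx => hH1 hx
      inj := inj
      p1 := fun x hx => i1 ▸ mem_image_of_mem ψ hx
      p2 := fun x hx => i2 ▸ mem_image_of_mem ψ hx
      p3 := fun x hx => i3 ▸ mem_image_of_mem ψ hx
      p4 := fun x hx => i4 ▸ mem_image_of_mem ψ hx
      p5 := fun x hx => i5 ▸ mem_image_of_mem ψ hx
      mIm := by
        intro v
        rw [image_union, image_union, image_union, image_union, i1, i2, i3, i4, i5,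
          mem_union, mem_union, mem_union, mem_union, or_assoc, or_assoc, or_assoc]
      s1 := fun v hv => hS1 hv
      s2 := fun v hv => hS2 hv
      s3 := fun v hv => hS3 hv
      SX := SX
      S'X := S'X
      CX := CX
      BX := BX
      hE1 := hE1
      hE0 := hE0
      st := hHost.st
      st' := hHost.st'
      out1 := fun u hu => hV ▸ hHost.out1 u hu
      out0 := fun u hu => hV ▸ hHost.out0 u hu
      inS := fun u hu => hV ▸ hHost.inS u hu
      l1 := l1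
      l2 := l2
      l3 := l3
      l4 := l4
      hidx := hidx }⟩

theorem as_core {Δ : ℕ} (T : PTree n) (hT : T.Deg Δ) (hV : Fintype.card V = n)
    (D : V → V → Prop) (τ : Bool) (K k : ℕ) (η γ κ : ℝ)
    (pos : Fin n → Bool) (Tl : Finset (Fin n)) (hd : Fin n → Fin n) (M₁ M₀ : Finset (Fin n))
    (hTree : TreeS T τ K η pos Tl hd M₁ M₀) (B C X S S' : Finset V)
    (lv lv' : V → Fin (Δ + 1) → V)
    (hHost : HostS D Δ B C X τ S S' lv lv' γ κ k)
    (S1 S2 S3 E1 E0 : Finset V) (U W H1 H0 : Finset (Fin n))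
    (hS1 : S1 ⊆ S) (hS2 : S2 ⊆ S) (hS12 : Disjoint S1 S2) (hS3 : S3 ⊆ S')
    (hE1 : ∀ v, v ∈ E1 ↔ v ∈ X ∧ v ∉ B ∧ v ∉ S1 ∧ v ∉ S2)
    (hE0 : ∀ v, v ∈ E0 ↔ v ∉ X ∧ v ∉ C ∧ v ∉ S3)
    (hU : U ⊆ M₀) (hH0 : H0 ⊆ M₀) (hUH0 : Disjoint U H0)
    (hW : W ⊆ M₁) (hH1 : H1 ⊆ M₁) (hWH1 : Disjoint W H1)
    (c1 : Tl.card = S1.card) (c2 : U.card = S2.card) (c3 : W.card = S3.card)
    (c4 : H1.card = E1.card) (c5 : H0.card = E0.card)
    (heq : X.card + W.card = (univ.filter fun v => pos v = true).card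
      + (if τ = true then 0 else Tl.card) + U.card) :
    ∃ (ψ : Fin n → V) (Lf : Finset (Fin n)) (lam : Fin n → V),
      MetData D T (fun b : Bool => if b = true then B else C) (fun a b => a ≠ b) γ
        (Tl ∪ U ∪ W ∪ H1 ∪ H0) ψ pos Lf lam := by
  obtain ⟨ψ, Lf, att, lam, idx, c⟩ := as_ctx T hT hV D τ K k η γ κ pos Tl hd M₁ M₀ hTree B C X S S'
    lv lv' hHost S1 S2 S3 E1 E0 U W H1 H0 hS1 hS2 hS12 hS3 hE1 hE0 hU hH0 hUH0 hW hH1 hWH1
    c1 c2 c3 c4 c5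
  refine ⟨ψ, Lf, lam, ?_⟩
  refine
    { sep := c.sep
      inj := fun x hx y hy h => c.inj x hx y hy h
      all := fun v hv => c.all v (hv true) (hv false)
      arc := ?_
      linj := fun y hy y' hy' h => c.linj y hy y' hy' h
      leaf := c.leaf
      outL := c.outL
      inL := c.inL
      outF := c.outF
      inF := c.inF
      count := ?_ }
  · intro x y h hx hy
    rcases c.arc x y h with h1 | h1
    · exact h1
    · exact absurd ((c.mSp x).mpr (Or.inl h1.1)) hx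
  · have hSpc : ((Tl ∪ U ∪ W ∪ H1 ∪ H0).image ψ).card = (Tl ∪ U ∪ W ∪ H1 ∪ H0).card :=
      card_image_of_injOn fun x hx y hy h => c.inj x hx y hy h
    have hP := as_cP τ pos Tl U W H1 H0 (fun x hx => (c.tl x hx).2.2.1)
      (fun x hx => c.pos0 x (c.hU x hx)) (fun x hx => c.pos1 x (c.hW x hx))
      (fun x hx => c.pos1 x (c.hH1 x hx)) (fun x hx => c.pos0 x (c.hH0 x hx))
      (fun x hx h => c.tlM1 x hx (c.hW x h)) (fun x hx h => c.tlM1 x hx (c.hH1 x h))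
      (fun x hx h => Finset.disjoint_left.mp hWH1 hx h)
    have hB := as_cB B X S1 S2 S3 E1 E0 _ c.BX c.mIm (fun v hv => c.SX v (c.s1 v hv))
      (fun v hv => c.SX v (c.s2 v hv)) (fun v hv => c.S'X v (c.s3 v hv)) hS12 hE1
      (fun v hv => ((hE0 v).mp hv).1)
    have hT1 := as_cT pos (Tl ∪ U ∪ W ∪ H1 ∪ H0)
    have hTrue : (univ.filter fun y => y ∉ Tl ∪ U ∪ W ∪ H1 ∪ H0 ∧ pos y = true).card
        = (B \ (Tl ∪ U ∪ W ∪ H1 ∪ H0).image ψ).card := by
      clear c hSpc hTree hHost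
      generalize (univ.filter fun y => y ∉ Tl ∪ U ∪ W ∪ H1 ∪ H0 ∧ pos y = true).card = a1 at *
      generalize ((Tl ∪ U ∪ W ∪ H1 ∪ H0).filter fun y => pos y = true).card = a2 at *
      generalize (B \ (Tl ∪ U ∪ W ∪ H1 ∪ H0).image ψ).card = a3 at *
      generalize (univ.filter fun v => pos v = true).card = a4 at *
      clear hS1 hS2 hS12 hS3 hE1 hE0 hU hH0 hUH0 hW hH1 hWH1
      cases τ
      · rw [if_neg (by decide)] at hP heq
        omega
      · rw [if_pos rfl] at hP heq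
        omega
    have hFalse := as_cF hV pos (Tl ∪ U ∪ W ∪ H1 ∪ H0) B C _ hSpc
      (fun v hv h => c.CX v h (c.BX v hv)) c.all hTrue
    intro b
    cases b
    · show _ = ((if false = true then B else C) \ _).card
      rw [if_neg (by decide)]
      convert hFalse
    · show _ = ((if true = true then B else C) \ _).card
      rw [if_pos rfl]
      convert hTrue


theorem as_num (NB kc xc sc sc' K L N e : ℕ) (hb1 : N ≤ 2 * NB + K) (hb2 : 2 * NB ≤ N + K)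
    (he : e ≤ kc) (hkc : kc ≤ L) (hKL : K ≤ L) (half : N ≤ 2 * xc)
    (hs : 2 * xc + 2 * (2 * L) ≤ N + 2 * sc) (hs' : 2 * xc ≤ N + 4 * (2 * L) → 2 * L ≤ sc') :
    ∃ mp mm : ℕ, xc + mm = NB + e + mp ∧ kc + mp ≤ sc ∧ mm ≤ sc' ∧ mm ≤ 2 * L ∧
      2 * mp + N ≤ 2 * xc + K := by
  by_cases h : NB + e ≤ xc
  · exact ⟨xc - (NB + e), 0, by omega, by omega, by omega, by omega, by omega⟩
  · have := hs' (by omega)
    exact ⟨0, NB + e - xc, by omega, by omega, by omega, by omega, by omega⟩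

end as_aux

theorem asmS {n : ℕ} (Δ : ℕ) (T : PTree n) (hT : T.Deg Δ) {V : Type} [Fintype V]
    (hV : Fintype.card V = n) (D : V → V → Prop) (τ : Bool) (K : ℕ) (η γ κ : ℝ)
    (pos : Fin n → Bool) (Tl : Finset (Fin n)) (hd : Fin n → Fin n) (M₁ M₀ : Finset (Fin n))
    (hTree : TreeS T τ K η pos Tl hd M₁ M₀) (B C X S S' : Finset V)
    (lv lv' : V → Fin (Δ + 1) → V)
    (hHost : HostS D Δ B C X τ S S' lv lv' γ κ (2 * K * (Nat.log 2 n + 1)))
    (hκ : 8 * κ ≤ η) (hn : 8 * K * (Nat.log 2 n + 1) ≤ η * (n : ℝ)) :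
    ∃ (Sp : Finset (Fin n)) (ψ : Fin n → V) (Lf : Finset (Fin n)) (lam : Fin n → V),
      (Sp.card : ℝ) ≤ 8 * κ * (n : ℝ) + 8 * K * (Nat.log 2 n + 1) ∧
      MetData D T (fun b : Bool => if b = true then B else C) (fun a b => a ≠ b) γ Sp ψ pos Lf lam := by
  obtain ⟨L, hL⟩ : ∃ L, L = K * (Nat.log 2 n + 1) := ⟨_, rfl⟩
  have hk : 2 * K * (Nat.log 2 n + 1) = 2 * L := by rw [hL, mul_assoc]
  rw [hk] at hHost
  have hLr : (8 * K * (Nat.log 2 n + 1) : ℝ) = 8 * L := by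
    rw [hL]
    push_cast
    ring
  rw [hLr] at hn ⊢
  have hKL : K ≤ L := by
    rw [hL]
    exact Nat.le_mul_of_pos_right K (Nat.succ_pos _)
  have hkc : Tl.card ≤ L := by
    rw [hL]
    exact hTree.cardTl
  obtain ⟨hb1, hb2⟩ := abs_le.mp hTree.bal
  have half := hHost.half
  have half' := hHost.half'
  have cS := hHost.cardS
  have cS' := hHost.cardS'
  have cB := hHost.nb.cardB
  have cC := hHost.nb.cardC
  rw [hV] at half half' cS cS' cB cC
  obtain ⟨mp, mm, heq, n1, n2, n3, n4⟩ := as_num (univ.filter fun v => pos v = true).card Tl.card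
    X.card S.card S'.card K L n (if τ = true then 0 else Tl.card) (by omega) (by omega)
    (by split_ifs <;> omega) hkc hKL half cS cS'
  obtain ⟨S1, hS1, c1⟩ := exists_subset_card_eq (s := S) (n := Tl.card) (by omega)
  obtain ⟨S2, hS2, c2⟩ := exists_subset_card_eq (s := S \ S1) (n := mp) (by
    rw [card_sdiff_of_subset hS1]
    omega)
  obtain ⟨S3, hS3, c3⟩ := exists_subset_card_eq n2
  have hS12 : Disjoint S1 S2 :=
    Finset.disjoint_left.mpr fun x hx h => (mem_sdiff.mp (hS2 h)).2 hx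
  have hS2' : S2 ⊆ S := fun x hx => (mem_sdiff.mp (hS2 hx)).1
  have hE1 : ∀ v, v ∈ X \ (B ∪ S1 ∪ S2) ↔ v ∈ X ∧ v ∉ B ∧ v ∉ S1 ∧ v ∉ S2 := by
    intro v
    rw [mem_sdiff, mem_union, mem_union]
    tauto
  have hE0 : ∀ v, v ∈ (univ : Finset V) \ (X ∪ C ∪ S3) ↔ v ∉ X ∧ v ∉ C ∧ v ∉ S3 := by
    intro v
    rw [mem_sdiff, mem_union, mem_union]
    have := mem_univ v
    tauto
  obtain ⟨E1, hE1d⟩ : ∃ E1, E1 = X \ (B ∪ S1 ∪ S2) := ⟨_, rfl⟩
  obtain ⟨E0, hE0d⟩ : ∃ E0, E0 = (univ : Finset V) \ (X ∪ C ∪ S3) := ⟨_, rfl⟩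
  rw [← hE1d] at hE1
  rw [← hE0d] at hE0
  -- the number of exceptional vertices
  have hcard : E1.card + E0.card + B.card + C.card ≤ n := by
    have d1 : Disjoint E1 E0 := Finset.disjoint_left.mpr fun x hx h =>
      ((hE0 x).mp h).1 ((hE1 x).mp hx).1
    have d2 : Disjoint (E1 ∪ E0) B := by
      refine Finset.disjoint_left.mpr fun x hx h => ?_
      rcases mem_union.mp hx with hx | hx
      · exact ((hE1 x).mp hx).2.1 h
      · exact ((hE0 x).mp hx).1 (hHost.BX h)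
    have d3 : Disjoint (E1 ∪ E0 ∪ B) C := by
      refine Finset.disjoint_left.mpr fun x hx h => ?_
      have hCX := Finset.disjoint_left.mp hHost.CX h
      rcases mem_union.mp hx with hx | hx
      · rcases mem_union.mp hx with hx | hx
        · exact hCX ((hE1 x).mp hx).1
        · exact ((hE0 x).mp hx).2.1 h
      · exact hCX (hHost.BX hx)
    rw [← card_union_of_disjoint d1, ← card_union_of_disjoint d2, ← card_union_of_disjoint d3,
      ← hV]
    exact card_le_univ _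
  have hcardR : ((E1.card : ℝ) + E0.card + B.card + C.card) ≤ n := by exact_mod_cast hcard
  have n3R : (mm : ℝ) ≤ 2 * L := by exact_mod_cast n3
  have n4R : 2 * (mp : ℝ) + n ≤ 2 * X.card + K := by exact_mod_cast n4
  have halfR : (n : ℝ) ≤ 2 * X.card := by exact_mod_cast half
  have hKLR : (K : ℝ) ≤ L := by exact_mod_cast hKL
  have hkcR : (Tl.card : ℝ) ≤ L := by exact_mod_cast hkc
  have hL0 : (0 : ℝ) ≤ L := Nat.cast_nonneg L
  have hE1R : (0 : ℝ) ≤ E1.card := Nat.cast_nonneg _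
  have hE0R : (0 : ℝ) ≤ E0.card := Nat.cast_nonneg _
  have hn0 : (0 : ℝ) ≤ n := Nat.cast_nonneg _
  have hκη : 8 * κ * (n : ℝ) ≤ η * n := mul_le_mul_of_nonneg_right hκ hn0
  have hκn : 0 ≤ κ * (n : ℝ) := by linarith
  have hEE : (E1.card : ℝ) + E0.card ≤ 2 * (κ * n) := by linarith
  have m0 := hTree.m0
  have m1 := hTree.m1
  have hM0 : mp + E0.card ≤ M₀.card := by
    have : (mp : ℝ) + E0.card ≤ M₀.card := by linarith
    exact_mod_cast this
  have hM1 : mm + E1.card ≤ M₁.card := by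
    have : (mm : ℝ) + E1.card ≤ M₁.card := by linarith
    exact_mod_cast this
  obtain ⟨U, hU, u1⟩ := exists_subset_card_eq (s := M₀) (n := mp) (by omega)
  obtain ⟨H0, hH0, u2⟩ := exists_subset_card_eq (s := M₀ \ U) (n := E0.card) (by
    rw [card_sdiff_of_subset hU]
    omega)
  obtain ⟨W, hW, u3⟩ := exists_subset_card_eq (s := M₁) (n := mm) (by omega)
  obtain ⟨H1, hH1, u4⟩ := exists_subset_card_eq (s := M₁ \ W) (n := E1.card) (by
    rw [card_sdiff_of_subset hW]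
    omega)
  obtain ⟨ψ, Lf, lam, hmet⟩ := as_core T hT hV D τ K (2 * L) η γ κ pos Tl hd M₁ M₀ hTree B C X S S'
    lv lv' hHost S1 S2 S3 E1 E0 U W H1 H0 hS1 hS2' hS12 hS3 hE1 hE0 hU
    (fun x hx => (mem_sdiff.mp (hH0 hx)).1)
    (Finset.disjoint_left.mpr fun x hx h => (mem_sdiff.mp (hH0 h)).2 hx) hW
    (fun x hx => (mem_sdiff.mp (hH1 hx)).1)
    (Finset.disjoint_left.mpr fun x hx h => (mem_sdiff.mp (hH1 h)).2 hx)
    c1.symm (u1.trans c2.symm) (u3.trans c3.symm) u4 u2 (by rw [u1, u3]; exact heq)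
  refine ⟨_, ψ, Lf, lam, ?_, hmet⟩
  have hSp : (Tl ∪ U ∪ W ∪ H1 ∪ H0).card ≤ Tl.card + mp + mm + E1.card + E0.card := by
    refine (card_union_le _ _).trans ?_
    have q1 := card_union_le (Tl ∪ U ∪ W) H1
    have q2 := card_union_le (Tl ∪ U) W
    have q3 := card_union_le Tl U
    omega
  have hSpR : ((Tl ∪ U ∪ W ∪ H1 ∪ H0).card : ℝ) ≤ Tl.card + mp + mm + E1.card + E0.card := by
    exact_mod_cast hSp
  linarith

end

end OT
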